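import Mathlib
import Pool.Agent.H48.GrD

set_option autoImplicit false

namespace Pool.Agent.Results.MP_ae9099_mp.Yes

open Pool.Agent.H48.GrDefs Filter Topology

/-- For every label invariant operator on a tree of finite cone type with (M1), every vertex `x`
and `S = V_x` (giving `Γ_x`) or `S = V` (giving `G_x`): the resolvent vector
`(T_S - z)⁻¹ δ_x` is the unique square summable solution, and `⟨δ_x, (T_S - z)⁻¹ δ_x⟩` has
boundary values at every real energy, which depend continuously on the energy. -/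
theorem result (A : Type) [Fintype A] (M : A → A → ℕ) (hM : ∀ k, 1 ≤ M k k) (j : A) (V : Type)
    (T : ConeTree A M j V) (L : LabelInv T) (x : V) (S : Set V)
    (hS : S = T.cone x ∨ S = Set.univ) :
    (∀ z : ℂ, 0 < z.im → ∃! φ, L.Sol S x z φ) ∧
    ∀ Φ : ℂ → V → ℂ, (∀ z : ℂ, 0 < z.im → L.Sol S x z (Φ z)) →
      ∃ B : ℝ → ℂ, Continuous B ∧ ∀ E : ℝ,
        Tendsto (fun η : ℝ => (L.ν x : ℂ) * Φ (E + η * Complex.I) x) (𝓝[>] 0) (𝓝 (B E)) :=
  Pool.Agent.H48.GrD.main L hM x S hS

end Pool.Agent.Results.MP_ae9099_mp.Yes
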